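import Pool.Agent.P.MP_422cad_co.Final

set_option autoImplicit false

namespace Pool.Agent.Results.MP_422cad_co.Full

open Pool.Agent.P.MP_422cad_co in
/-- Let `G` be a graph on `n ≥ 3` vertices such that `G - v` has a Hamilton path for every vertex
`v` and `n - 2 ≤ 3 δ(G)`. Then `G` is hamiltonian or the Petersen graph. -/
theorem result :
    ∀ (V : Type) [Fintype V] [DecidableEq V] (G : SimpleGraph V) [DecidableRel G.Adj],
      3 ≤ Fintype.card V →
      (∀ v : V, ∃ (a b : {w : V // w ≠ v}) (p : (G.induce {w : V | w ≠ v}).Walk a b),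
        p.IsHamiltonian) →
      Fintype.card V ≤ 3 * G.minDegree + 2 →
      G.IsHamiltonian ∨
        Nonempty (G ≃g SimpleGraph.fromRel
          (fun s t : {s : Finset (Fin 5) // s.card = 2} => Disjoint s.1 t.1)) := by
  intro V _ _ G _ hn ht hd
  by_cases hG : G.IsHamiltonian
  · exact Or.inl hG
  right
  have hn' : 3 ≤ ord V := by unfold ord; omega
  obtain ⟨H, h0, h1⟩ := exists_mnh G (fun h => hG (h.isHamiltonian hn)) hn'
  have hsub : ∀ w, G.neighborFinset w ⊆ nb H w := by
    intro w y hy
    rw [mem_nb]
    exact h0 (by simpa using hy)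
  have h2 : NoU H := by
    intro u
    by_contra h3
    push Not at h3
    obtain ⟨a, b, p, hp⟩ := ht u
    have hl := hp.length_eq
    have hc : Fintype.card {w : V | w ≠ u} = Fintype.card V - 1 := by
      rw [← Set.toFinset_card]
      simp [Finset.filter_ne', Finset.card_erase_of_mem]
    rw [hc] at hl
    refine h1.nh (ham_of_univ u (fun i => (p.getVert i.toNat).1) ⟨fun i i0 i1 => ?_,
      fun i j i0 i1 i2 e => ?_⟩ (fun i _ _ => (p.getVert i.toNat).2) h3 (by omega))
    · have := p.adj_getVert_succ (i := i.toNat) (by unfold ord at i1; omega)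
      rw [← show (i + 1).toNat = i.toNat + 1 by omega] at this
      exact h0 this
    · have := hp.isPath.getVert_injOn (x₁ := i.toNat) (by unfold ord at i2; simp; omega)
        (x₂ := j.toNat) (by unfold ord at i2; simp; omega) (Subtype.ext e)
      omega
  have h3 : ∀ w, (G.minDegree : ℤ) ≤ (nb H w).card := by
    intro w
    have a := G.minDegree_le_degree w
    have c := Finset.card_le_card (hsub w)
    rw [SimpleGraph.card_neighborFinset_eq_degree] at c
    omega
  obtain ⟨a, b, c⟩ := Ctx.petersen (G := H) (d := G.minDegree)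
    ⟨h1, h2, h3, by unfold ord; omega, hn'⟩
  unfold ord at a
  have e : G = H := by
    refine le_antisymm h0 fun w x hx => ?_
    have h5 := G.minDegree_le_degree w
    have h6 : G.neighborFinset w = nb H w := by
      apply Finset.eq_of_subset_of_card_le (hsub w)
      have := b w
      rw [SimpleGraph.card_neighborFinset_eq_degree]
      omega
    rw [← SimpleGraph.mem_neighborFinset, h6, mem_nb]
    exact hx
  rw [e]
  exact c

end Pool.Agent.Results.MP_422cad_co.Full
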